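import Pool.Agent.Lib_helper15.Bishop.Defs

/-!
# Module K: cocycle lemmas
-/

set_option autoImplicit false

universe u

namespace Pool.Agent.Bishop

open MeasureTheory Set Filter
open scoped ENNReal NNReal Topology

section

variable {X : Type*} (τ : Equiv.Perm X)

lemma bsum_natCast' (φ : X → ℝ) (n : ℕ) (t : X) :
    bsum φ τ n t = ∑ j ∈ Finset.range n, φ ((τ ^ (j : ℤ)) t) := by
  unfold bsum
  rw [if_pos (by positivity), Int.toNat_natCast]

lemma bsum_neg' (φ : X → ℝ) (n : ℕ) (t : X) :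
    bsum φ τ (-(n : ℤ)) t = - ∑ j ∈ Finset.range n, φ ((τ ^ (-(j : ℤ) - 1)) t) := by
  rcases Nat.eq_zero_or_pos n with rfl | hn
  · simp [bsum]
  · unfold bsum
    rw [if_neg (by omega), neg_neg, Int.toNat_natCast]

lemma bsum_zero' (φ : X → ℝ) (t : X) : bsum φ τ 0 t = 0 := by
  have := bsum_natCast' τ φ 0 t
  simpa using this

lemma bsum_succ' (φ : X → ℝ) (n : ℤ) (t : X) :
    bsum φ τ (n + 1) t = bsum φ τ n t + φ ((τ ^ n) t) := by
  obtain ⟨m, rfl | rfl⟩ := n.eq_nat_or_neg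
  · have : (m : ℤ) + 1 = ((m + 1 : ℕ) : ℤ) := by push_cast; ring
    rw [this, bsum_natCast', bsum_natCast', Finset.sum_range_succ]
  · rcases m with _ | m
    · have h0 : (-((0 : ℕ) : ℤ)) + 1 = ((1 : ℕ) : ℤ) := by simp
      rw [h0, bsum_natCast', bsum_neg']
      simp
    · have h1 : -((m + 1 : ℕ) : ℤ) + 1 = -(m : ℤ) := by push_cast; ring
      have h2 : (-(m : ℤ) - 1) = -((m + 1 : ℕ) : ℤ) := by push_cast; ring
      rw [h1, bsum_neg', bsum_neg', Finset.sum_range_succ, h2]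
      ring

lemma bsum_add' (φ : X → ℝ) (n m : ℤ) (t : X) :
    bsum φ τ (n + m) t = bsum φ τ n t + bsum φ τ m ((τ ^ n) t) := by
  have hmul : ∀ m : ℤ, (τ ^ m) ((τ ^ n) t) = (τ ^ (n + m)) t := by
    intro m
    rw [add_comm n m, zpow_add, Equiv.Perm.mul_apply]
  induction m using Int.induction_on with
  | zero => rw [add_zero, bsum_zero', add_zero]
  | succ m ih =>
    rw [← add_assoc, bsum_succ', ih, bsum_succ', hmul]
    ring
  | pred m ih =>
    have h1 := bsum_succ' τ φ (n + (-(m : ℤ) - 1)) t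
    have h2 := bsum_succ' τ φ (-(m : ℤ) - 1) ((τ ^ n) t)
    have e1 : n + (-(m : ℤ) - 1) + 1 = n + -(m : ℤ) := by ring
    have e2 : (-(m : ℤ) - 1) + 1 = -(m : ℤ) := by ring
    rw [e1, ih] at h1
    rw [e2, hmul] at h2
    linarith

lemma symm_zpow (n : ℤ) (t : X) : (τ.symm ^ n) t = (τ ^ (-n)) t := by
  have : τ.symm = τ⁻¹ := rfl
  rw [this, inv_zpow']

lemma bsum_symm' (φ : X → ℝ) (n : ℤ) (t : X) :
    bsum (fun u => φ (τ.symm u)) τ.symm n t = - bsum φ τ (-n) t := by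
  have hstep : ∀ n : ℤ, -bsum φ τ (-(n + 1)) t = -bsum φ τ (-n) t +
      φ (τ.symm ((τ.symm ^ n) t)) := by
    intro n
    have h1 := bsum_succ' τ φ (-(n + 1)) t
    have e1 : -(n + 1) + 1 = -n := by ring
    rw [e1] at h1
    have e2 : τ.symm ((τ.symm ^ n) t) = (τ ^ (-(n + 1))) t := by
      rw [← symm_zpow τ (n + 1) t, add_comm n 1, zpow_one_add, Equiv.Perm.mul_apply]
    rw [e2, h1]
    ring
  induction n using Int.induction_on with
  | zero => rw [neg_zero, bsum_zero', bsum_zero', neg_zero]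
  | succ n ih => rw [bsum_succ', ih, hstep]
  | pred n ih =>
    have h1 := bsum_succ' τ.symm (fun u => φ (τ.symm u)) (-(n : ℤ) - 1) t
    have h2 := hstep (-(n : ℤ) - 1)
    have e2 : (-(n : ℤ) - 1) + 1 = -(n : ℤ) := by ring
    rw [e2] at h1 h2
    rw [ih, h2] at h1
    linarith

lemma TameB.symm' {φ : X → ℝ} {t : X} (h : TameB φ τ t) :
    TameB (fun u => φ (τ.symm u)) τ.symm t := by
  obtain ⟨s, r, hr, hb⟩ := h
  refine ⟨s, r, hr, fun i n hn => ?_⟩
  have h1 := hb i (-n) (by push_cast; rwa [abs_neg])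
  rw [bsum_symm']
  push_cast at h1
  rw [← abs_neg]
  have : -(-bsum φ τ (-n) t - n * s i) = bsum φ τ (-n) t - -n * s i := by ring
  rw [this]
  exact h1

lemma wprod_natCast' (w : X → ℂ) (n : ℕ) (t : X) :
    wprod w τ n t = ∏ j ∈ Finset.range n, w ((τ ^ (j : ℤ)) t) := by
  unfold wprod
  rw [if_pos (by positivity), Int.toNat_natCast]

lemma wprod_neg' (w : X → ℂ) (n : ℕ) (t : X) :
    wprod w τ (-(n : ℤ)) t = (∏ j ∈ Finset.range n, w ((τ ^ (-(j : ℤ) - 1)) t))⁻¹ := by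
  rcases Nat.eq_zero_or_pos n with rfl | hn
  · simp [wprod]
  · unfold wprod
    rw [if_neg (by omega), neg_neg, Int.toNat_natCast]

lemma wprod_zero' (w : X → ℂ) (t : X) : wprod w τ 0 t = 1 := by
  have := wprod_natCast' τ w 0 t
  simpa using this

variable {τ} {w : X → ℂ} {t : X} (hw : ∀ n : ℤ, w ((τ ^ n) t) ≠ 0)

include hw

lemma wprod_ne_zero' (n : ℤ) : wprod w τ n t ≠ 0 := by
  obtain ⟨m, rfl | rfl⟩ := n.eq_nat_or_neg
  · rw [wprod_natCast']
    exact Finset.prod_ne_zero_iff.2 fun j _ => hw j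
  · rw [wprod_neg']
    exact inv_ne_zero (Finset.prod_ne_zero_iff.2 fun j _ => hw _)

lemma wprod_succ' (n : ℤ) : wprod w τ (n + 1) t = wprod w τ n t * w ((τ ^ n) t) := by
  obtain ⟨m, rfl | rfl⟩ := n.eq_nat_or_neg
  · have : (m : ℤ) + 1 = ((m + 1 : ℕ) : ℤ) := by push_cast; ring
    rw [this, wprod_natCast', wprod_natCast', Finset.prod_range_succ]
  · rcases m with _ | m
    · have h0 : (-((0 : ℕ) : ℤ)) + 1 = ((1 : ℕ) : ℤ) := by simp
      rw [h0, wprod_natCast', wprod_neg']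
      simp
    · have h1 : -((m + 1 : ℕ) : ℤ) + 1 = -(m : ℤ) := by push_cast; ring
      have h2 : (-(m : ℤ) - 1) = -((m + 1 : ℕ) : ℤ) := by push_cast; ring
      have h3 := hw (-((m + 1 : ℕ) : ℤ))
      rw [h1, wprod_neg', wprod_neg', Finset.prod_range_succ, h2, mul_inv, mul_assoc,
        inv_mul_cancel₀ h3, mul_one]

lemma norm_wprod' (n : ℤ) :
    ‖wprod w τ n t‖ = Real.exp (bsum (fun u => Real.log ‖w u‖) τ n t) := by
  have hexp : ∀ n : ℤ, Real.exp (Real.log ‖w ((τ ^ n) t)‖) = ‖w ((τ ^ n) t)‖ := fun n =>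
    Real.exp_log (norm_pos_iff.2 (hw n))
  obtain ⟨m, rfl | rfl⟩ := n.eq_nat_or_neg
  · rw [wprod_natCast', bsum_natCast', Real.exp_sum, norm_prod]
    exact Finset.prod_congr rfl fun j _ => (hexp j).symm
  · rw [wprod_neg', bsum_neg', Real.exp_neg, Real.exp_sum, norm_inv, norm_prod]
    congr 1
    exact Finset.prod_congr rfl fun j _ => (hexp _).symm

end

theorem modK : ModK.{u} := by
  intro X τ
  exact ⟨bsum_zero' τ, bsum_succ' τ, bsum_add' τ, bsum_symm' τ, fun _ _ h => h.symm',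
    wprod_zero' τ, fun _ _ hw n => ⟨wprod_ne_zero' hw n, wprod_succ' hw n, norm_wprod' hw n⟩⟩

end Pool.Agent.Bishop
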