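import Pool.Agent.Lib_helper15.Bishop.Defs

/-!
# Modules R1, R1': Birkhoff sums of two rotations
-/

set_option autoImplicit false

universe u

namespace Pool.Agent.Bishop

open MeasureTheory Set Filter
open scoped ENNReal NNReal Topology

lemma rot_pow (a : UnitAddCircle) (n : ℕ) (t : UnitAddCircle) : (rot a ^ n) t = t + n • a := by
  induction n generalizing t with
  | zero => simp
  | succ n ih =>
    rw [pow_succ, Equiv.Perm.mul_apply, ih, succ_nsmul]
    change t + a + n • a = _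
    abel

lemma rot_zpow (a : UnitAddCircle) (n : ℤ) (t : UnitAddCircle) : (rot a ^ n) t = t + n • a := by
  obtain ⟨m, rfl | rfl⟩ := n.eq_nat_or_neg
  · rw [zpow_natCast, rot_pow, natCast_zsmul]
  · rw [zpow_neg, zpow_natCast, neg_smul, natCast_zsmul]
    apply (rot a ^ m).injective
    rw [rot_pow, rot_pow]
    have h : (rot a ^ m) (((rot a ^ m)⁻¹) t) = t := (rot a ^ m).apply_symm_apply t
    rw [rot_pow] at h
    rw [h]
    abel

lemma bsum_rot_natCast (φ : UnitAddCircle → ℝ) (a t : UnitAddCircle) (n : ℕ) :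
    bsum φ (rot a) n t = ∑ j ∈ Finset.range n, φ (t + j • a) := by
  unfold bsum
  rw [if_pos (by positivity)]
  simp [rot_pow]

lemma bsum_rot_neg (φ : UnitAddCircle → ℝ) (a t : UnitAddCircle) (n : ℕ) :
    bsum φ (rot a) (-(n : ℤ)) t = - ∑ j ∈ Finset.range n, φ (t - (j + 1) • a) := by
  rcases Nat.eq_zero_or_pos n with rfl | hn
  · simp [bsum]
  · unfold bsum
    rw [if_neg (by omega)]
    congr 1
    rw [neg_neg, Int.toNat_natCast]
    refine Finset.sum_congr rfl fun j _ => ?_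
    rw [rot_zpow]
    congr 1
    have : (-(j : ℤ) - 1) • a = -((j + 1 : ℕ) • a) := by
      rw [← natCast_zsmul, ← neg_smul]
      congr 1
      push_cast
      ring
    rw [this]
    abel

theorem modR1' : ModR1' := by
  intro φ a b t N n hn
  obtain ⟨m, rfl | rfl⟩ := n.eq_nat_or_neg
  · have hmN : m ≤ N := by simpa using hn
    rw [bsum_rot_natCast, bsum_rot_natCast, ← Finset.sum_sub_distrib]
    have h1 : |∑ j ∈ Finset.range m, (φ (t + j • a) - φ (t + j • b))| ≤
        ∑ j ∈ Finset.range N, |φ (t + j • a) - φ (t + j • b)| :=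
      (Finset.abs_sum_le_sum_abs _ _).trans
        (Finset.sum_le_sum_of_subset_of_nonneg (Finset.range_mono hmN) fun _ _ _ => abs_nonneg _)
    have h2 : 0 ≤ ∑ j ∈ Finset.range N, |φ (t - (j + 1) • a) - φ (t - (j + 1) • b)| :=
      Finset.sum_nonneg fun _ _ => abs_nonneg _
    linarith
  · have hmN : m ≤ N := by simpa using hn
    rw [bsum_rot_neg, bsum_rot_neg, neg_sub_neg, ← Finset.sum_sub_distrib]
    have h1 : |∑ j ∈ Finset.range m, (φ (t - (j + 1) • b) - φ (t - (j + 1) • a))| ≤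
        ∑ j ∈ Finset.range N, |φ (t - (j + 1) • a) - φ (t - (j + 1) • b)| := by
      refine (Finset.abs_sum_le_sum_abs _ _).trans ?_
      simp only [abs_sub_comm (φ (t - (_ + 1) • b))]
      exact Finset.sum_le_sum_of_subset_of_nonneg (Finset.range_mono hmN)
        fun _ _ _ => abs_nonneg _
    have h2 : 0 ≤ ∑ j ∈ Finset.range N, |φ (t + j • a) - φ (t + j • b)| :=
      Finset.sum_nonneg fun _ _ => abs_nonneg _
    linarith

/-- the sum over a full period -/
lemma bsum_rot_succ (φ : UnitAddCircle → ℝ) (a t : UnitAddCircle) (n : ℤ) :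
    bsum φ (rot a) (n + 1) t = bsum φ (rot a) n t + φ (t + n • a) := by
  obtain ⟨m, rfl | rfl⟩ := n.eq_nat_or_neg
  · have : (m : ℤ) + 1 = ((m + 1 : ℕ) : ℤ) := by push_cast; ring
    rw [this, bsum_rot_natCast, bsum_rot_natCast, Finset.sum_range_succ, natCast_zsmul]
  · rcases m with _ | m
    · have h0 : (-((0 : ℕ) : ℤ)) + 1 = ((1 : ℕ) : ℤ) := by simp
      rw [h0, bsum_rot_natCast, bsum_rot_neg]
      simp
    · have : -((m + 1 : ℕ) : ℤ) + 1 = -(m : ℤ) := by push_cast; ring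
      rw [this, bsum_rot_neg, bsum_rot_neg, Finset.sum_range_succ, neg_smul, natCast_zsmul,
        ← sub_eq_add_neg]
      ring

lemma bsum_sub_avgq_periodic (φ : UnitAddCircle → ℝ) {q : ℕ} (hq : 0 < q) {ρ : UnitAddCircle}
    (hρ : q • ρ = 0) (t : UnitAddCircle) (n : ℤ) :
    bsum φ (rot ρ) (n + q) t - ((n + q : ℤ) : ℝ) * avgq φ q ρ t =
      bsum φ (rot ρ) n t - (n : ℝ) * avgq φ q ρ t := by
  have hq0 : (q : ℝ) ≠ 0 := by exact_mod_cast hq.ne'
  -- the difference `bsum (n + q) - bsum n` does not depend on `n`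
  have h1 : ∀ n : ℤ, bsum φ (rot ρ) (n + q) t - bsum φ (rot ρ) n t =
      bsum φ (rot ρ) (0 + q) t - bsum φ (rot ρ) 0 t := by
    have hstep : ∀ n : ℤ, bsum φ (rot ρ) (n + 1 + q) t - bsum φ (rot ρ) (n + 1) t =
        bsum φ (rot ρ) (n + q) t - bsum φ (rot ρ) n t := by
      intro n
      have e1 : n + 1 + (q : ℤ) = (n + q) + 1 := by ring
      rw [e1, bsum_rot_succ, bsum_rot_succ, add_smul, natCast_zsmul, hρ, add_zero]
      ring
    intro n
    induction n using Int.induction_on with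
    | zero => rfl
    | succ n ih => rw [hstep, ih]
    | pred n ih =>
      rw [← ih, ← hstep (-(n : ℤ) - 1)]
      simp
  have h2 : bsum φ (rot ρ) (0 + q) t - bsum φ (rot ρ) 0 t = q * avgq φ q ρ t := by
    have e0 : (0 : ℤ) + (q : ℤ) = ((q : ℕ) : ℤ) := by simp
    have e1 : (0 : ℤ) = ((0 : ℕ) : ℤ) := rfl
    rw [e0, bsum_rot_natCast, e1, bsum_rot_natCast, Finset.range_zero, Finset.sum_empty, sub_zero,
      avgq, mul_div_cancel₀ _ hq0]
  have h3 := h1 n
  rw [h2] at h3
  push_cast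
  linarith

lemma bsum_sub_avgq_emod (φ : UnitAddCircle → ℝ) {q : ℕ} (hq : 0 < q) {ρ : UnitAddCircle}
    (hρ : q • ρ = 0) (t : UnitAddCircle) (n : ℤ) :
    bsum φ (rot ρ) n t - (n : ℝ) * avgq φ q ρ t =
      bsum φ (rot ρ) (n % q) t - ((n % q : ℤ) : ℝ) * avgq φ q ρ t := by
  have h1 : ∀ (m k : ℤ), bsum φ (rot ρ) (m + q * k) t - ((m + q * k : ℤ) : ℝ) * avgq φ q ρ t =
      bsum φ (rot ρ) m t - (m : ℝ) * avgq φ q ρ t := by
    intro m k
    induction k using Int.induction_on with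
    | zero => simp
    | succ k ih =>
      have e : m + q * ((k : ℤ) + 1) = (m + q * k) + q := by ring
      rw [e, bsum_sub_avgq_periodic φ hq hρ, ih]
    | pred k ih =>
      have e : m + q * (-(k : ℤ)) = (m + q * (-(k : ℤ) - 1)) + q := by ring
      rw [← ih, e, bsum_sub_avgq_periodic φ hq hρ]
  have h2 := h1 (n % q) (n / q)
  rw [Int.emod_add_mul_ediv] at h2
  exact h2

theorem modR1 : ModR1 := by
  intro φ c q ρ t D hq0 hq hρ hD0 hD k
  induction k with
  | zero =>
    intro n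
    have h1 : ρ 0 = 0 := by have := hρ 0; rwa [hq0, one_smul] at this
    have h2 := bsum_sub_avgq_emod φ (hq 0) (hρ 0) t n
    rw [h2, hq0, hD0]
    simp [bsum]
  | succ k ih =>
    intro n
    rw [bsum_sub_avgq_emod φ (hq (k + 1)) (hρ (k + 1)) t n]
    have hqz : (0 : ℤ) < q (k + 1) := by exact_mod_cast hq (k + 1)
    obtain ⟨m, hm⟩ := Int.eq_ofNat_of_zero_le (Int.emod_nonneg n hqz.ne')
    have hmlt : m < q (k + 1) := by
      have := Int.emod_lt_of_pos n hqz
      rw [hm] at this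
      exact_mod_cast this
    rw [hm, Int.cast_natCast]
    have h3 := ih m
    rw [Int.cast_natCast] at h3
    rw [bsum_rot_natCast] at h3 ⊢
    have h4 : |∑ j ∈ Finset.range m, φ (t + j • ρ (k + 1)) -
        ∑ j ∈ Finset.range m, φ (t + j • ρ k)| ≤
        ∑ j ∈ Finset.range (q (k + 1)), |φ (t + j • ρ (k + 1)) - φ (t + j • ρ k)| := by
      rw [← Finset.sum_sub_distrib]
      exact (Finset.abs_sum_le_sum_abs _ _).trans
        (Finset.sum_le_sum_of_subset_of_nonneg (Finset.range_mono hmlt.le)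
          fun _ _ _ => abs_nonneg _)
    have hmq : (m : ℝ) ≤ q (k + 1) := by exact_mod_cast hmlt.le
    have hm0 : (0 : ℝ) ≤ m := by positivity
    have h5 : |(m : ℝ) * (avgq φ (q k) (ρ k) t - c)| ≤
        q (k + 1) * |avgq φ (q k) (ρ k) t - c| := by
      rw [abs_mul, abs_of_nonneg hm0]
      exact mul_le_mul_of_nonneg_right hmq (abs_nonneg _)
    have h6 : |(m : ℝ) * (avgq φ (q (k + 1)) (ρ (k + 1)) t - c)| ≤
        q (k + 1) * |avgq φ (q (k + 1)) (ρ (k + 1)) t - c| := by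
      rw [abs_mul, abs_of_nonneg hm0]
      exact mul_le_mul_of_nonneg_right hmq (abs_nonneg _)
    rw [hD k]
    rw [abs_le] at h3 h4 h5 h6 ⊢
    constructor <;> nlinarith [h3.1, h3.2, h4.1, h4.2, h5.1, h5.2, h6.1, h6.2]

end Pool.Agent.Bishop
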