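import Pool.Agent.Lib_helper15.Bishop.Defs

/-!
# Module R2: the average over a rational rotation is close to the mean in `L¹`
-/

set_option autoImplicit false

universe u

namespace Pool.Agent.Bishop

open MeasureTheory Set Filter
open scoped ENNReal NNReal Topology

section avg

variable (φ : UnitAddCircle → ℝ) (q : ℕ) (ρ : UnitAddCircle)

lemma avgq_add_rho (hρ : q • ρ = 0) (t : UnitAddCircle) : avgq φ q ρ (t + ρ) = avgq φ q ρ t := by
  unfold avgq
  congr 1
  have h1 : ∀ j : ℕ, φ (t + ρ + j • ρ) = φ (t + (j + 1) • ρ) := by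
    intro j
    rw [succ_nsmul, add_assoc, add_comm ρ]
  simp only [h1]
  have h2 := Finset.sum_range_succ' (fun j : ℕ => φ (t + j • ρ)) q
  have h3 := Finset.sum_range_succ (fun j : ℕ => φ (t + j • ρ)) q
  rw [h3, hρ, zero_nsmul] at h2
  linarith

lemma avgq_add_nsmul (hρ : q • ρ = 0) (n : ℕ) (t : UnitAddCircle) :
    avgq φ q ρ (t + n • ρ) = avgq φ q ρ t := by
  induction n with
  | zero => simp
  | succ n ih => rw [succ_nsmul, ← add_assoc, avgq_add_rho φ q ρ hρ, ih]

lemma avgq_add_zsmul (hρ : q • ρ = 0) (n : ℤ) (t : UnitAddCircle) :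
    avgq φ q ρ (t + n • ρ) = avgq φ q ρ t := by
  obtain ⟨m, rfl | rfl⟩ := n.eq_nat_or_neg
  · rw [natCast_zsmul, avgq_add_nsmul φ q ρ hρ]
  · rw [neg_smul, natCast_zsmul, ← avgq_add_nsmul φ q ρ hρ m (t + -(m • ρ))]
    congr 1
    abel

end avg

theorem modR2 : ModR2 := by
  intro φ hφ p q hq hpq ω hω
  set ρ : UnitAddCircle := (((p : ℝ) / q : ℝ) : UnitAddCircle) with hρdef
  have hq0 : (q : ℝ) ≠ 0 := by exact_mod_cast hq.ne'
  have hqpos : (0 : ℝ) < q := by exact_mod_cast hq
  have hρ : q • ρ = 0 := by
    rw [hρdef, ← AddCircle.coe_nsmul, nsmul_eq_mul, mul_div_cancel₀ _ hq0]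
    have : ((p : ℝ) : UnitAddCircle) = ((p : ℤ) • (1 : ℝ) : ℝ) := by simp
    rw [this, AddCircle.coe_zsmul, AddCircle.coe_period, smul_zero]
  set A : UnitAddCircle → ℝ := avgq φ q ρ with hA
  -- integrability of `A`
  have hshift : ∀ b : UnitAddCircle, Integrable (fun t => φ (t + b)) volume := fun b =>
    hφ.comp_add_right b
  have hAint : Integrable A volume := by
    have : A = fun t => (∑ j ∈ Finset.range q, φ (t + j • ρ)) / q := rfl
    rw [this]
    exact (integrable_finsetSum _ fun j _ => hshift (j • ρ)).div_const _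
  have hAmean : ∫ t, A t = ∫ t, φ t := by
    have h1 : ∫ t, A t = (∑ j ∈ Finset.range q, ∫ t, φ (t + j • ρ)) / q := by
      change ∫ t, (∑ j ∈ Finset.range q, φ (t + j • ρ)) / q = _
      rw [integral_div, integral_finsetSum _ fun j _ => hshift (j • ρ)]
    rw [h1]
    simp only [integral_add_right_eq_self]
    rw [Finset.sum_const, Finset.card_range, nsmul_eq_mul, mul_div_cancel_left₀ _ hq0]
  -- small shifts of `A`
  have hsmall : ∀ u : ℝ, 0 ≤ u → u ≤ 1 / q →
      ∫ t, |A (t + (u : UnitAddCircle)) - A t| ≤ ω := by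
    intro u hu0 hu1
    have hint : ∀ b : UnitAddCircle,
        Integrable (fun t => |φ (t + (u : UnitAddCircle) + b) - φ (t + b)|) volume := by
      intro b
      have h1 : Integrable (fun t => φ (t + (u : UnitAddCircle) + b)) volume := by
        simpa only [add_assoc] using hshift ((u : UnitAddCircle) + b)
      exact (h1.sub (hshift b)).abs
    have h1 : ∀ t, |A (t + (u : UnitAddCircle)) - A t| ≤
        (∑ j ∈ Finset.range q, |φ (t + (u : UnitAddCircle) + j • ρ) - φ (t + j • ρ)|) / q := by
      intro t
      have : A (t + (u : UnitAddCircle)) - A t =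
          (∑ j ∈ Finset.range q, (φ (t + (u : UnitAddCircle) + j • ρ) - φ (t + j • ρ))) / q := by
        rw [Finset.sum_sub_distrib, sub_div]
        rfl
      rw [this, abs_div, abs_of_pos hqpos]
      gcongr
      exact Finset.abs_sum_le_sum_abs _ _
    have h2 : ∫ t, |A (t + (u : UnitAddCircle)) - A t| ≤
        ∫ t, (∑ j ∈ Finset.range q, |φ (t + (u : UnitAddCircle) + j • ρ) - φ (t + j • ρ)|) / q := by
      apply integral_mono
      · exact ((hAint.comp_add_right _).sub hAint).abs
      · exact (integrable_finsetSum _ fun j _ => hint (j • ρ)).div_const _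
      · exact h1
    refine h2.trans ?_
    rw [integral_div, integral_finsetSum _ fun j _ => hint (j • ρ), div_le_iff₀ hqpos]
    have h3 : ∀ j ∈ Finset.range q,
        ∫ t, |φ (t + (u : UnitAddCircle) + j • ρ) - φ (t + j • ρ)| ≤ ω := by
      intro j _
      have h4 : ∫ t, |φ (t + (u : UnitAddCircle) + j • ρ) - φ (t + j • ρ)| =
          ∫ t, |φ (t + (u : UnitAddCircle)) - φ t| := by
        rw [← integral_add_right_eq_self (fun t => |φ (t + (u : UnitAddCircle)) - φ t|) (j • ρ)]
        congr 1
        funext t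
        rw [add_right_comm]
      rw [h4]
      exact hω u hu0 hu1
    calc ∑ j ∈ Finset.range q, ∫ t, |φ (t + (u : UnitAddCircle) + j • ρ) - φ (t + j • ρ)|
        ≤ ∑ _j ∈ Finset.range q, ω := Finset.sum_le_sum h3
      _ = ω * q := by rw [Finset.sum_const, Finset.card_range, nsmul_eq_mul, mul_comm]
  -- all shifts of `A`
  have hall : ∀ s : UnitAddCircle, ∫ t, |A (t + s) - A t| ≤ ω := by
    intro s
    obtain ⟨x, rfl⟩ := QuotientAddGroup.mk_surjective s
    change ∫ t, |A (t + ((x : ℝ) : UnitAddCircle)) - A t| ≤ ω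
    obtain ⟨a, b, hab⟩ := hpq
    set m : ℤ := ⌊(q : ℝ) * x⌋ with hm
    set u : ℝ := x - m / q with hu
    have hu0 : 0 ≤ u := by
      have := Int.floor_le ((q : ℝ) * x)
      rw [hu, sub_nonneg, div_le_iff₀ hqpos, mul_comm]
      exact this
    have hu1 : u ≤ 1 / q := by
      have := Int.lt_floor_add_one ((q : ℝ) * x)
      rw [hu, sub_le_iff_le_add, ← add_div, le_div_iff₀ hqpos]
      linarith
    have hx : ((x : ℝ) : UnitAddCircle) = (u : UnitAddCircle) + (m * a) • ρ := by
      have h1 : x = u + ((m * a : ℤ) • ((p : ℝ) / q) + (m * b : ℤ) • (1 : ℝ)) := by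
        rw [hu, zsmul_eq_mul, zsmul_eq_mul]
        push_cast
        have h2 : ((a : ℝ) * p + b * q) = 1 := by exact_mod_cast hab
        field_simp
        linear_combination (-(m : ℝ)) * h2
      conv_lhs => rw [h1]
      rw [AddCircle.coe_add, AddCircle.coe_add, AddCircle.coe_zsmul, AddCircle.coe_zsmul,
        AddCircle.coe_period, smul_zero, add_zero]
    have h2 : ∀ t, A (t + ((x : ℝ) : UnitAddCircle)) = A (t + (u : UnitAddCircle)) := by
      intro t
      rw [hx, ← add_assoc, hA, avgq_add_zsmul φ q ρ hρ]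
    simp only [h2]
    exact hsmall u hu0 hu1
  -- product integrability
  have hprod : Integrable (Function.uncurry fun t s : UnitAddCircle => A (t + s) - A t)
      (volume.prod volume) := by
    have h1 : MeasurePreserving (fun z : UnitAddCircle × UnitAddCircle => (z.1, z.1 + z.2))
        (volume.prod volume) (volume.prod volume) := measurePreserving_prod_add _ _
    have h2 : Integrable (fun z : UnitAddCircle × UnitAddCircle => A z.2)
        (volume.prod volume) := hAint.comp_snd _
    have h3 : Integrable (fun z : UnitAddCircle × UnitAddCircle => A (z.1 + z.2))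
        (volume.prod volume) := h1.integrable_comp_of_integrable h2
    exact h3.sub (hAint.comp_fst _)
  have hprod' := hprod.abs
  have huniv : (volume : Measure UnitAddCircle).real univ = 1 := by
    rw [Measure.real, UnitAddCircle.measure_univ]; rfl
  have hfin : ∀ t, |A t - ∫ s, φ s| ≤ ∫ s, |A (t + s) - A t| := by
    intro t
    have h1 : ∫ s, (A (t + s) - A t) = (∫ s, φ s) - A t := by
      rw [integral_sub (hAint.comp_add_left t) (integrable_const _), integral_const, huniv,
        one_smul, integral_add_left_eq_self, hAmean]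
    rw [abs_sub_comm, ← h1]
    exact abs_integral_le_integral_abs
  calc ∫ t, |A t - ∫ s, φ s| ≤ ∫ t, ∫ s, |A (t + s) - A t| := by
        apply integral_mono
        · exact (hAint.sub (integrable_const _)).abs
        · exact hprod'.integral_prod_left
        · exact hfin
    _ = ∫ s, ∫ t, |A (t + s) - A t| := integral_integral_swap hprod'
    _ ≤ ∫ _s : UnitAddCircle, ω := by
        apply integral_mono
        · exact hprod'.integral_prod_right
        · exact integrable_const _
        · exact hall
    _ = ω := by rw [integral_const, huniv, one_smul]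

end Pool.Agent.Bishop
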